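import Mathlib

namespace Pool.Agent.H460BZ

/-- the dyadic decomposition of an initial segment `[0, m)` -/
theorem bits (H : ℕ) : ∀ (m r : ℕ), m < 2 ^ H →
    (if r < m then (1:ℝ) else 0) =
      ∑ j ∈ Finset.range H, (if (m / 2 ^ j) % 2 = 1 ∧ r / 2 ^ j + 1 = m / 2 ^ j then (1:ℝ) else 0) := by
  induction H with
  | zero => intro m r hm; simp at hm; subst hm; simp
  | succ H ih =>
    intro m r hm
    rw [Finset.sum_range_succ']
    have h2 : m / 2 < 2 ^ H := by
      rw [pow_succ] at hm; omega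
    have := ih (m / 2) (r / 2) h2
    have e : ∀ j, (if (m / 2 ^ (j+1)) % 2 = 1 ∧ r / 2 ^ (j+1) + 1 = m / 2 ^ (j+1) then (1:ℝ) else 0)
        = (if (m / 2 / 2 ^ j) % 2 = 1 ∧ r / 2 / 2 ^ j + 1 = m / 2 / 2 ^ j then (1:ℝ) else 0) := by
      intro j
      rw [pow_succ', ← Nat.div_div_eq_div_mul, ← Nat.div_div_eq_div_mul]
    rw [Finset.sum_congr rfl (fun j _ => e j), ← this]
    simp only [pow_zero, Nat.div_one]
    by_cases h1 : r < m
    · by_cases h3 : r / 2 < m / 2
      · have h4 : ¬ (m % 2 = 1 ∧ r + 1 = m) := by omega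
        simp [h1, h3, h4]
      · have h4 : (m % 2 = 1 ∧ r + 1 = m) := by omega
        simp [h1, h3, h4]
    · have h3 : ¬ r / 2 < m / 2 := by omega
      have h4 : ¬ (m % 2 = 1 ∧ r + 1 = m) := by omega
      simp [h1, h3, h4]

end Pool.Agent.H460BZ
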