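import Pool.Agent.H460BZ.Tail
import Pool.Agent.H460BZ.Bits

namespace Pool.Agent.H460BZ

open MeasureTheory ProbabilityTheory Set
open scoped InnerProductSpace

theorem inner_toLp {N : ℕ} (f g : Fin N → ℝ) :
    ⟪(WithLp.toLp 2 f : EE N), (WithLp.toLp 2 g : EE N)⟫_ℝ = ∑ i, f i * g i := by
  simp [PiLp.inner_apply, mul_comm]

theorem norm_toLp_sq {N : ℕ} (f : Fin N → ℝ) :
    ‖(WithLp.toLp 2 f : EE N)‖ ^ 2 = ∑ i, f i ^ 2 := by
  rw [EuclideanSpace.norm_sq_eq]
  simp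

/-- vector balancing with few short tests -/
theorem balance_tests {ι τ : Type*} [Fintype ι] [Fintype τ] (n : ℕ) (v : ℕ → ι → ℝ) (S : τ → ι → ℝ)
    (W R : ℝ) (hW : 0 < W) (hv : ∀ k < n, ∑ x, v k x ^ 2 = W) (hS : ∀ m, ∑ x, S m x ^ 2 ≤ W)
    (hR : 0 ≤ R)
    (hT : ((n:ℝ) + 1) * (2 * Fintype.card τ * Real.exp (-R ^ 2 / (2 * W))) ≤ 1 / 100) :
    ∃ σ : ℕ → ℤ, (∀ i, σ i = 1 ∨ σ i = -1) ∧
      ∀ k ≤ n, ∀ m : τ, |∑ j ∈ Finset.range k, (σ j : ℝ) * ∑ x, S m x * v j x| ≤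
        100 * Real.sqrt W * R := by
  classical
  let e : ι ≃ Fin (Fintype.card ι) := Fintype.equivFin ι
  let N := Fintype.card ι
  let S' : τ → EE N := fun m => WithLp.toLp 2 (fun i => S m (e.symm i))
  let V : ℕ → EE N := fun k => WithLp.toLp 2 (fun i => v k (e.symm i))
  have hS' : ∀ m, ‖S' m‖ ^ 2 ≤ W := by
    intro m
    rw [norm_toLp_sq, e.symm.sum_comp (fun x => S m x ^ 2)]
    exact hS m
  have hV' : ∀ k < n, ‖V k‖ = Real.sqrt W := by
    intro k hk
    have : ‖V k‖ ^ 2 = W := by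
      rw [norm_toLp_sq, e.symm.sum_comp (fun x => v k x ^ 2)]
      exact hv k hk
    rw [← this, Real.sqrt_sq (norm_nonneg _)]
  have hin : ∀ m k, ⟪S' m, V k⟫_ℝ = ∑ x, S m x * v k x := by
    intro m k
    rw [inner_toLp, e.symm.sum_comp (fun x => S m x * v k x)]
  set K : Set (EE N) := {x | ∀ m, |⟪S' m, x⟫_ℝ| ≤ R} with hKdef
  have hKm := polytope S' W R hW hS' hR
  have hsW : 0 < Real.sqrt W := Real.sqrt_pos.mpr hW
  have hKc : IsClosed K := by
    have : K = ⋂ m, {x : EE N | |⟪S' m, x⟫_ℝ| ≤ R} := by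
      ext x; simp [hKdef]
    rw [this]
    exact isClosed_iInter fun m => isClosed_le (by fun_prop) continuous_const
  have hKx : Convex ℝ K := by
    intro x hx y hy a b ha hb hab m
    have h1 := abs_le.mp (hx m)
    have h2 := abs_le.mp (hy m)
    rw [inner_add_right, inner_smul_right, inner_smul_right, abs_le]
    have hb' : b = 1 - a := by linarith
    subst hb'
    constructor <;> nlinarith
  have hKs : ∀ x ∈ K, -x ∈ K := by
    intro x hx m
    rw [inner_neg_right, abs_neg]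
    exact hx m
  obtain ⟨σ, hσ, hk⟩ := prefix_balance (n := N) (K := K) hKc hKx hKs
    (2 * Fintype.card τ * Real.exp (-R ^ 2 / (2 * W))) hKm n hT
    (fun j => (1 / (100 * Real.sqrt W)) • V j) (by
      intro j hj
      rw [norm_smul, hV' j hj, Real.norm_of_nonneg (by positivity)]
      field_simp)
  refine ⟨σ, hσ, fun k hkn m => ?_⟩
  have h1 := hk k hkn m
  rw [inner_sum] at h1
  have h2 : ∑ i ∈ Finset.range k, ⟪S' m, (σ i : ℝ) • (1 / (100 * Real.sqrt W)) • V i⟫_ℝ =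
      (1 / (100 * Real.sqrt W)) * ∑ j ∈ Finset.range k, (σ j : ℝ) * ∑ x, S m x * v j x := by
    rw [Finset.mul_sum]
    refine Finset.sum_congr rfl fun j _ => ?_
    rw [inner_smul_right, inner_smul_right, hin]
    ring
  rw [h2, abs_mul, abs_of_pos (by positivity)] at h1
  have h3 : 1 / (100 * Real.sqrt W) * |∑ j ∈ Finset.range k, (σ j : ℝ) * ∑ x, S m x * v j x|
    = |∑ j ∈ Finset.range k, (σ j : ℝ) * ∑ x, S m x * v j x| / (100 * Real.sqrt W) := by ring
  rw [h3, div_le_iff₀ (by positivity)] at h1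
  linarith

end Pool.Agent.H460BZ
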