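import Pool.Agent.H460BZ.Anch

namespace Pool.Agent.H460BZ

open Finset

/-- dyadic vector factor -/
noncomputable def vf (H n : ℕ) (r : ℕ) (y : Fin H × Fin (n+1)) : ℝ :=
  if r / 2 ^ (y.1 : ℕ) = (y.2 : ℕ) then 1 else 0

/-- dyadic test factor -/
noncomputable def tf (H n : ℕ) (m : ℕ) (y : Fin H × Fin (n+1)) : ℝ :=
  if (m / 2 ^ (y.1 : ℕ)) % 2 = 1 ∧ (y.2 : ℕ) + 1 = m / 2 ^ (y.1 : ℕ) then 1 else 0

theorem vf_sum (H n r : ℕ) (hr : r ≤ n) : ∑ y, vf H n r y ^ 2 = H := by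
  rw [Fintype.sum_prod_type]
  have : ∀ j : Fin H, ∑ b : Fin (n+1), vf H n r (j, b) ^ 2 = 1 := by
    intro j
    have hb : r / 2 ^ (j:ℕ) < n + 1 := lt_of_le_of_lt (Nat.div_le_self _ _) (by omega)
    rw [Finset.sum_eq_single (⟨r / 2 ^ (j:ℕ), hb⟩ : Fin (n+1))]
    · simp [vf]
    · intro b _ hne
      have : ¬ (r / 2 ^ (j:ℕ) = (b:ℕ)) := fun h => hne (Fin.ext h.symm)
      simp [vf, this]
    · simp
  rw [Finset.sum_congr rfl (fun j _ => this j)]
  simp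

theorem tf_sum (H n m : ℕ) : ∑ y, tf H n m y ^ 2 ≤ H := by
  rw [Fintype.sum_prod_type]
  have : ∀ j : Fin H, ∑ b : Fin (n+1), tf H n m (j, b) ^ 2 ≤ 1 := by
    intro j
    by_cases hb : m / 2 ^ (j:ℕ) - 1 < n + 1
    · rw [Finset.sum_eq_single (⟨m / 2 ^ (j:ℕ) - 1, hb⟩ : Fin (n+1))]
      · simp only [tf]; split_ifs <;> norm_num
      · intro b _ hne
        have : ¬ ((m / 2 ^ (j:ℕ)) % 2 = 1 ∧ (b : ℕ) + 1 = m / 2 ^ (j:ℕ)) :=
          fun h => hne (Fin.ext (by simp; omega))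
        simp only [tf]
        rw [if_neg this]; norm_num
      · simp
    · rw [Finset.sum_eq_zero]
      · norm_num
      · intro b _
        have : ¬ ((m / 2 ^ (j:ℕ)) % 2 = 1 ∧ (b : ℕ) + 1 = m / 2 ^ (j:ℕ)) := by
          have := b.2
          omega
        simp only [tf]
        rw [if_neg this]; norm_num
  refine (Finset.sum_le_sum (fun j _ => this j)).trans ?_
  simp

theorem tv_sum (H n m r : ℕ) (hr : r ≤ n) (hm : m < 2 ^ H) :
    ∑ y, tf H n m y * vf H n r y = if r < m then 1 else 0 := by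
  rw [bits H m r hm, Fintype.sum_prod_type, ← Fin.sum_univ_eq_sum_range
    (fun j => (if (m / 2 ^ j) % 2 = 1 ∧ r / 2 ^ j + 1 = m / 2 ^ j then (1:ℝ) else 0))]
  refine Finset.sum_congr rfl fun j _ => ?_
  have hb : r / 2 ^ (j:ℕ) < n + 1 := lt_of_le_of_lt (Nat.div_le_self _ _) (by omega)
  rw [Finset.sum_eq_single (⟨r / 2 ^ (j:ℕ), hb⟩ : Fin (n+1))]
  · simp [vf, tf]
  · intro b _ hne
    have : ¬ (r / 2 ^ (j:ℕ) = (b:ℕ)) := fun h => hne (Fin.ext h.symm)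
    simp [vf, this]
  · simp

theorem sum_prod_pi {D : ℕ} {κ : Type*} [Fintype κ] (g : Fin D → κ → ℝ) :
    ∑ x : Fin D → κ, ∏ i, g i (x i) = ∏ i, ∑ y, g i y := by
  rw [← Finset.sum_prod_piFinset, Fintype.piFinset_univ]

theorem anchored (D n H : ℕ) (hH : n < 2 ^ H) (hH0 : 0 < H) (r : Fin D → ℕ → ℕ)
    (hr : ∀ i k, k < n → r i k ≤ n) (R : ℝ) (hR : 0 ≤ R)
    (hT : ((n:ℝ)+1) * (2 * ((n:ℝ)+1)^D * Real.exp (-R^2/(2*(H:ℝ)^D))) ≤ 1/100) :
    ∃ σ : ℕ → ℤ, (∀ i, σ i = 1 ∨ σ i = -1) ∧ ∀ k ≤ n, ∀ m : Fin D → ℕ, (∀ i, m i ≤ n) →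
      |∑ j ∈ Finset.range k, (σ j : ℝ) * ∏ i, (if r i j < m i then (1:ℝ) else 0)| ≤
        100 * Real.sqrt ((H:ℝ)^D) * R := by
  classical
  obtain ⟨σ, hσ, h⟩ := balance_tests (ι := Fin D → Fin H × Fin (n+1)) (τ := Fin D → Fin (n+1)) n
    (fun k x => ∏ i, vf H n (r i k) (x i)) (fun m x => ∏ i, tf H n (m i) (x i)) ((H:ℝ)^D) R
    (by positivity) (by
      intro k hk
      simp_rw [← Finset.prod_pow]
      rw [sum_prod_pi (fun i y => vf H n (r i k) y ^ 2),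
        Finset.prod_congr rfl (fun i _ => vf_sum H n (r i k) (hr i k hk))]
      simp) (by
      intro m
      simp_rw [← Finset.prod_pow]
      rw [sum_prod_pi (fun i y => tf H n (m i) y ^ 2)]
      refine (Finset.prod_le_prod (fun i _ => Finset.sum_nonneg fun y _ => sq_nonneg _)
        (fun i _ => tf_sum H n (m i))).trans ?_
      simp) hR (by
      rw [Fintype.card_fun, Fintype.card_fin, Fintype.card_fin]
      push_cast
      exact hT)
  refine ⟨σ, hσ, fun k hk m hm => ?_⟩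
  have h1 := h k hk (fun i => ⟨m i, by have := hm i; omega⟩)
  have h2 : ∑ j ∈ range k, (σ j : ℝ) * ∏ i, (if r i j < m i then (1:ℝ) else 0) =
    ∑ j ∈ range k, (σ j : ℝ) * ∑ x : Fin D → Fin H × Fin (n+1), (∏ i, tf H n (m i) (x i)) *
      ∏ i, vf H n (r i j) (x i) := by
    refine Finset.sum_congr rfl fun j hj => ?_
    have hj' : j < n := by rw [Finset.mem_range] at hj; omega
    simp_rw [← Finset.prod_mul_distrib]
    rw [sum_prod_pi (fun i y => tf H n (m i) y * vf H n (r i j) y)]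
    congr 1
    refine Finset.prod_congr rfl fun i _ => ?_
    rw [tv_sum H n (m i) (r i j) (hr i j hj') (lt_of_le_of_lt (hm i) hH)]
  rw [h2]
  exact h1

end Pool.Agent.H460BZ
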