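import Pool.Agent.H460BZ.Chord
import Pool.Agent.H902R3.ZA.PLN
import Pool.Agent.H902R3.ZA.PLA
import Pool.Agent.H902R3.ZA.LBM

/-!
# Balancing a convex body: the body `K * u` has no smaller Gaussian measure
-/

set_option autoImplicit false

namespace Pool.Agent.H460BZ

open MeasureTheory ProbabilityTheory Set
open scoped ENNReal Pointwise
open Pool.Agent.H902R3.ZA (gm)

abbrev EE (n : ℕ) := EuclideanSpace ℝ (Fin n)

theorem gauss_bm (n : ℕ) (t : ℝ) (h0 : 0 < t) (h1 : t < 1) (A B C : Set (EE n))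
    (hA : MeasurableSet A) (hB : MeasurableSet B) (hC : MeasurableSet C)
    (h : ∀ x ∈ A, ∀ y ∈ B, (1 - t) • x + t • y ∈ C) :
    (stdGaussian (EE n) A) ^ (1 - t) * (stdGaussian (EE n) B) ^ t ≤ stdGaussian (EE n) C := by
  have hm : Measurable (WithLp.toLp 2 : (Fin n → ℝ) → EE n) := by fun_prop
  rw [← map_pi_eq_stdGaussian, Measure.map_apply hm hA, Measure.map_apply hm hB,
    Measure.map_apply hm hC]
  have key := Pool.Agent.H902R3.ZA.PLN_ok (Pool.Agent.H902R3.ZA.PLA_ok Pool.Agent.H902R3.ZA.LBM_ok)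
    n (1 - t) (by linarith) (by linarith)
    ((WithLp.toLp 2 ⁻¹' A : Set (Fin n → ℝ)).indicator 1) ((WithLp.toLp 2 ⁻¹' B).indicator 1)
    ((WithLp.toLp 2 ⁻¹' C).indicator 1)
    (measurable_one.indicator (hm hA)) (measurable_one.indicator (hm hB))
    (measurable_one.indicator (hm hC))
    (fun x => Set.indicator_le_self' (fun _ _ => zero_le_one) x)
    (fun x => Set.indicator_le_self' (fun _ _ => zero_le_one) x) ?_
  · rw [lintegral_indicator_one (hm hA), lintegral_indicator_one (hm hB),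
      lintegral_indicator_one (hm hC), sub_sub_cancel] at key
    exact key
  · intro x y
    rw [sub_sub_cancel]
    by_cases hx : x ∈ (WithLp.toLp 2 ⁻¹' A : Set (Fin n → ℝ))
    · by_cases hy : y ∈ (WithLp.toLp 2 ⁻¹' B : Set (Fin n → ℝ))
      · have hz : (fun i => (1 - t) * x i + t * y i) ∈ (WithLp.toLp 2 ⁻¹' C : Set (Fin n → ℝ)) := by
          have := h _ hx _ hy
          exact this
        rw [indicator_of_mem hx, indicator_of_mem hy, indicator_of_mem hz]
        simp
      · rw [indicator_of_notMem hy, ENNReal.zero_rpow_of_pos h0, mul_zero]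
        exact zero_le
    · rw [indicator_of_notMem hx, ENNReal.zero_rpow_of_pos (by linarith), zero_mul]
      exact zero_le

section
variable {n : ℕ}

/-- points `p` of `K` with `p + T u ∈ K` -/
def lng (K : Set (EE n)) (u : EE n) (T : ℝ) : Set (EE n) := {p | p ∈ K ∧ p + T • u ∈ K}

/-- `A + [a,b] u` -/
def sg (A : Set (EE n)) (u : EE n) (a b : ℝ) : Set (EE n) := {x | ∃ p ∈ A, ∃ t ∈ Icc a b, x = p + t • u}

theorem lng_closed {K : Set (EE n)} (hK : IsClosed K) (u : EE n) (T : ℝ) : IsClosed (lng K u T) :=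
  hK.inter (hK.preimage (by fun_prop : Continuous fun p : EE n => p + T • u))

theorem sg_closed {A : Set (EE n)} (hA : IsClosed A) (u : EE n) (a b : ℝ) : IsClosed (sg A u a b) := by
  have h1 : sg A u a b = A + (fun t : ℝ => t • u) '' Icc a b := by
    ext x
    rw [Set.mem_add]
    constructor
    · rintro ⟨p, hp, t, ht, rfl⟩
      exact ⟨p, hp, t • u, ⟨t, ht, rfl⟩, rfl⟩
    · rintro ⟨p, hp, y, ⟨t, ht, rfl⟩, rfl⟩
      exact ⟨p, hp, t, ht, rfl⟩
  rw [h1]
  apply hA.add_right_of_isCompact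
  exact isCompact_Icc.image (by fun_prop)

theorem lng_convex {K : Set (EE n)} (hK : Convex ℝ K) (u : EE n) (T : ℝ) : Convex ℝ (lng K u T) := by
  rintro p ⟨hp1, hp2⟩ q ⟨hq1, hq2⟩ a b ha hb hab
  refine ⟨hK hp1 hq1 ha hb hab, ?_⟩
  have := hK hp2 hq2 ha hb hab
  have e : a • p + b • q + T • u = a • (p + T • u) + b • (q + T • u) := by
    rw [smul_add, smul_add, smul_smul, smul_smul, show T = a * T + b * T by rw [← add_mul, hab, one_mul]]
    rw [add_smul]
    rw [← add_mul, hab, one_mul]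
    abel
  rw [e]; exact this

theorem sg_convex {A : Set (EE n)} (hA : Convex ℝ A) (u : EE n) (s t : ℝ) : Convex ℝ (sg A u s t) := by
  rintro _ ⟨p, hp, x, hx, rfl⟩ _ ⟨q, hq, y, hy, rfl⟩ a b ha hb hab
  refine ⟨a • p + b • q, hA hp hq ha hb hab, a * x + b * y, ?_, ?_⟩
  · exact (convex_Icc s t) hx hy ha hb hab
  · rw [smul_add, smul_add, smul_smul, smul_smul, add_smul]
    abel

/-- the balanced body -/
def star (K : Set (EE n)) (u : EE n) : Set (EE n) := sg (lng K u 2) u (-1) 3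

theorem star_closed {K : Set (EE n)} (hK : IsClosed K) (u : EE n) : IsClosed (star K u) :=
  sg_closed (lng_closed hK u 2) u _ _

theorem star_convex {K : Set (EE n)} (hK : Convex ℝ K) (u : EE n) : Convex ℝ (star K u) :=
  sg_convex (lng_convex hK u 2) u _ _

theorem star_symm {K : Set (EE n)} (hK : ∀ x ∈ K, -x ∈ K) (u : EE n) : ∀ x ∈ star K u, -x ∈ star K u := by
  rintro _ ⟨p, ⟨hp, hp'⟩, t, ht, rfl⟩
  refine ⟨-(p + (2:ℝ) • u), ⟨hK _ hp', ?_⟩, 2 - t, ⟨by linarith [ht.2], by linarith [ht.1]⟩, ?_⟩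
  · have : -(p + (2:ℝ) • u) + (2:ℝ) • u = -p := by abel
    rw [this]; exact hK _ hp
  · rw [sub_smul]; abel

/-- the point of the construction -/
theorem star_step {K : Set (EE n)} (hK : Convex ℝ K) (u : EE n) {x : EE n} (hx : x ∈ star K u) :
    x + u ∈ K ∨ x - u ∈ K := by
  obtain ⟨p, ⟨hp, hp'⟩, t, ht, rfl⟩ := hx
  have key : ∀ s : ℝ, 0 ≤ s → s ≤ 2 → p + s • u ∈ K := by
    intro s h0 h2
    have := hK hp hp' (a := 1 - s / 2) (b := s / 2) (by linarith) (by linarith) (by ring)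
    have e : (1 - s / 2) • p + (s / 2) • (p + (2:ℝ) • u) = p + s • u := by
      rw [smul_add, smul_smul, sub_smul, one_smul]
      rw [show s / 2 * 2 = s by ring]
      abel
    rwa [e] at this
  rcases le_total t 1 with h | h
  · left
    have := key (t + 1) (by linarith [ht.1]) (by linarith)
    rwa [add_smul, one_smul, ← add_assoc] at this
  · right
    have := key (t - 1) (by linarith) (by linarith [ht.2])
    rwa [sub_smul, one_smul, ← add_sub_assoc] at this

/-- the union of the chords of length at least `T |u|` -/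
def KL (K : Set (EE n)) (u : EE n) (T : ℝ) : Set (EE n) := sg (lng K u T) u 0 T

/-- the inclusion behind the inequality -/
theorem incl {K : Set (EE n)} (hK : Convex ℝ K) (u : EE n) (θ : ℝ) (h0 : 0 < θ) (h1 : θ < 1) :
    ∀ x ∈ sg K u (-1) 1, ∀ y ∈ KL K u (2 / θ), (1 - θ) • x + θ • y ∈ star K u := by
  rintro _ ⟨k, hk, s, hs, rfl⟩ _ ⟨p, ⟨hp, hp'⟩, t, ht, rfl⟩
  refine ⟨(1 - θ) • k + θ • p, ⟨hK hk hp (by linarith) h0.le (by ring), ?_⟩, (1 - θ) * s + θ * t, ?_, ?_⟩
  · have := hK hk hp' (a := 1 - θ) (b := θ) (by linarith) h0.le (by ring)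
    have e : (1 - θ) • k + θ • (p + (2 / θ) • u) = (1 - θ) • k + θ • p + (2:ℝ) • u := by
      rw [smul_add, smul_smul, mul_div_cancel₀ _ h0.ne', add_assoc]
    rwa [e] at this
  · have e2 : θ * (2 / θ) = 2 := mul_div_cancel₀ _ h0.ne'
    have h3 : θ * t ≤ θ * (2 / θ) := mul_le_mul_of_nonneg_left ht.2 h0.le
    have h4 : 0 ≤ θ * t := mul_nonneg h0.le ht.1
    have h5 : (1 - θ) * s ≤ (1 - θ) * 1 := mul_le_mul_of_nonneg_left hs.2 (by linarith)
    have h6 : (1 - θ) * (-1) ≤ (1 - θ) * s := mul_le_mul_of_nonneg_left hs.1 (by linarith)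
    constructor <;> linarith
  · rw [smul_add, smul_add, smul_smul, smul_smul, add_smul]
    abel

end

/-- Fubini in the direction of the first basis vector -/
theorem fubini (M : ℕ) (b : OrthonormalBasis (Fin (M + 1)) ℝ (EE (M + 1))) (A : Set (EE (M + 1)))
    (hA : MeasurableSet A) : stdGaussian (EE (M + 1)) A =
      ∫⁻ y, gaussianReal 0 1 {z : ℝ | z • b 0 + ∑ j, y j • b (Fin.succ j) ∈ A} ∂(gm M) := by
  have hf : Measurable (fun x : Fin (M + 1) → ℝ => ∑ i, x i • b i) := by fun_prop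
  rw [stdGaussian_eq_map_pi_orthonormalBasis b, Measure.map_apply hf hA]
  change gm (M + 1) _ = _
  have hmp := Pool.Agent.H902R3.ZA.PLNaux.mp M
  rw [← hmp.measure_preimage_equiv, Measure.prod_apply_symm]
  · refine lintegral_congr (fun y => ?_)
    congr 1
    ext z
    simp only [mem_preimage, mem_ofPred_eq]
    rw [Fin.sum_univ_succ]
    have e0 := Pool.Agent.H902R3.ZA.PLNaux.ee_symm_zero M z y
    have e1 := Pool.Agent.H902R3.ZA.PLNaux.ee_symm_succ M z y
    rw [e0]
    simp only [e1]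
  · exact (Pool.Agent.H902R3.ZA.PLNaux.ee M).symm.measurable (hf hA)

end Pool.Agent.H460BZ
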