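import Mathlib

/-!
# A chordwise inequality for the one dimensional Gaussian measure
-/

set_option autoImplicit false

namespace Pool.Agent.H460BZ

open MeasureTheory ProbabilityTheory Set

/-- the Gaussian density -/
noncomputable def φ (x : ℝ) : ℝ := gaussianPDFReal 0 1 x

theorem φ_eq (x : ℝ) : φ x = (Real.sqrt (2 * Real.pi))⁻¹ * Real.exp (-(x ^ 2 / 2)) := by
  unfold φ gaussianPDFReal
  congr 2
  · simp
  · simp only [NNReal.coe_one, sub_zero, mul_one]; ring

theorem φ_cont : Continuous φ := by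
  have : φ = fun x => (Real.sqrt (2 * Real.pi))⁻¹ * Real.exp (-(x ^ 2 / 2)) := funext φ_eq
  rw [this]
  fun_prop

theorem φ_nonneg (x : ℝ) : 0 ≤ φ x := gaussianPDFReal_nonneg 0 1 x

theorem psi_eq (c t : ℝ) : φ (c - t) + φ (c + t) =
    ((Real.sqrt (2 * Real.pi))⁻¹ * Real.exp (-(c ^ 2 / 2)) * 2) *
      (Real.exp (-(t ^ 2 / 2)) * Real.cosh (c * t)) := by
  rw [φ_eq, φ_eq, Real.cosh_eq]
  have h1 : Real.exp (-((c - t) ^ 2 / 2)) =
      Real.exp (-(c ^ 2 / 2)) * Real.exp (-(t ^ 2 / 2)) * Real.exp (c * t) := by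
    rw [← Real.exp_add, ← Real.exp_add]; congr 1; ring
  have h2 : Real.exp (-((c + t) ^ 2 / 2)) =
      Real.exp (-(c ^ 2 / 2)) * Real.exp (-(t ^ 2 / 2)) * Real.exp (-(c * t)) := by
    rw [← Real.exp_add, ← Real.exp_add]; congr 1; ring
  rw [h1, h2]; ring

theorem exp_small : Real.exp ((0.21 : ℝ) ^ 2 / 2) ≤ 31 / 30 := by
  have h := Real.exp_bound_div_one_sub_of_interval (x := (0.21 : ℝ) ^ 2 / 2) (by norm_num) (by norm_num)
  refine h.trans ?_
  norm_num

theorem psi_le (c t t' : ℝ) (ht : 0 ≤ t) (htt : t ≤ t') (h : t' ≤ 0.21) :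
    φ (c - t) + φ (c + t) ≤ (31 / 30) * (φ (c - t') + φ (c + t')) := by
  rw [psi_eq, psi_eq]
  set C := (Real.sqrt (2 * Real.pi))⁻¹ * Real.exp (-(c ^ 2 / 2)) * 2 with hC
  have hC0 : 0 ≤ C := by positivity
  have h1 : Real.cosh (c * t) ≤ Real.cosh (c * t') := by
    rw [Real.cosh_le_cosh, abs_mul, abs_mul, abs_of_nonneg ht, abs_of_nonneg (ht.trans htt)]
    exact mul_le_mul_of_nonneg_left htt (abs_nonneg c)
  have h2 : Real.exp (-(t ^ 2 / 2)) ≤ (31 / 30) * Real.exp (-(t' ^ 2 / 2)) := by
    calc Real.exp (-(t ^ 2 / 2)) ≤ 1 := Real.exp_le_one_iff.2 (by nlinarith [sq_nonneg t])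
      _ = Real.exp (t' ^ 2 / 2) * Real.exp (-(t' ^ 2 / 2)) := by
          rw [← Real.exp_add]; simp
      _ ≤ (31 / 30) * Real.exp (-(t' ^ 2 / 2)) := by
          apply mul_le_mul_of_nonneg_right _ (Real.exp_nonneg _)
          refine le_trans (Real.exp_le_exp.2 ?_) exp_small
          nlinarith
  have h3 : Real.exp (-(t ^ 2 / 2)) * Real.cosh (c * t) ≤
      ((31 / 30) * Real.exp (-(t' ^ 2 / 2))) * Real.cosh (c * t') :=
    mul_le_mul h2 h1 (Real.cosh_pos _).le (by positivity)
  calc C * (Real.exp (-(t ^ 2 / 2)) * Real.cosh (c * t))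
      ≤ C * (((31 / 30) * Real.exp (-(t' ^ 2 / 2))) * Real.cosh (c * t')) :=
        mul_le_mul_of_nonneg_left h3 hC0
    _ = _ := by ring

/-- the basic chord inequality with real integrals -/
theorem chord_real (a b h : ℝ) (hab : a ≤ b) (hh : 0 < h) (hs : (b - a) / 2 + h ≤ 0.21) :
    h * ∫ x in a..b, φ x ≤ (31 / 30) * ((b - a) / 2) *
      ((∫ x in (a - h)..a, φ x) + ∫ x in b..(b + h), φ x) := by
  set c := (a + b) / 2 with hc
  set l := (b - a) / 2 with hl
  have hl0 : 0 ≤ l := by rw [hl]; linarith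
  have i1 : ∀ u v : ℝ, IntervalIntegrable (fun t => φ (c - t)) volume u v := fun u v =>
    (φ_cont.comp (continuous_const.sub continuous_id)).intervalIntegrable _ _
  have i2 : ∀ u v : ℝ, IntervalIntegrable (fun t => φ (c + t)) volume u v := fun u v =>
    (φ_cont.comp (continuous_const.add continuous_id)).intervalIntegrable _ _
  have e1 : ∫ x in a..b, φ x = ∫ t in (0:ℝ)..l, (φ (c - t) + φ (c + t)) := by
    rw [intervalIntegral.integral_add (i1 _ _) (i2 _ _),
      intervalIntegral.integral_comp_sub_left (fun x => φ x) c,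
      intervalIntegral.integral_comp_add_left (fun x => φ x) c, sub_zero, add_zero,
      intervalIntegral.integral_add_adjacent_intervals (φ_cont.intervalIntegrable _ _)
        (φ_cont.intervalIntegrable _ _)]
    congr 1 <;> rw [hc, hl] <;> ring
  have e2 : (∫ x in (a - h)..a, φ x) + ∫ x in b..(b + h), φ x =
      ∫ t in l..(l + h), (φ (c - t) + φ (c + t)) := by
    rw [intervalIntegral.integral_add (i1 _ _) (i2 _ _),
      intervalIntegral.integral_comp_sub_left (fun x => φ x) c,
      intervalIntegral.integral_comp_add_left (fun x => φ x) c]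
    congr 1 <;> congr 1 <;> rw [hc, hl] <;> ring
  rw [e1, e2]
  have hcont : Continuous (fun t => φ (c - t) + φ (c + t)) :=
    (φ_cont.comp (continuous_const.sub continuous_id)).add
      (φ_cont.comp (continuous_const.add continuous_id))
  -- pointwise in t'
  have k1 : ∀ t' ∈ Icc l (l + h), (∫ t in (0:ℝ)..l, (φ (c - t) + φ (c + t))) ≤
      (31 / 30) * l * (φ (c - t') + φ (c + t')) := by
    intro t' ht'
    have : (∫ t in (0:ℝ)..l, (φ (c - t) + φ (c + t))) ≤
        ∫ t in (0:ℝ)..l, (31 / 30) * (φ (c - t') + φ (c + t')) := by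
      apply intervalIntegral.integral_mono_on hl0 (hcont.intervalIntegrable _ _) (by simp)
      intro t ht
      exact psi_le c t t' ht.1 (ht.2.trans ht'.1) (ht'.2.trans hs)
    refine this.trans ?_
    rw [intervalIntegral.integral_const, smul_eq_mul, sub_zero]
    apply le_of_eq; ring
  have k2 : ∫ t' in l..(l + h), (∫ t in (0:ℝ)..l, (φ (c - t) + φ (c + t))) ≤
      ∫ t' in l..(l + h), (31 / 30) * l * (φ (c - t') + φ (c + t')) :=
    intervalIntegral.integral_mono_on (by linarith) (by simp) ((hcont.const_mul _).intervalIntegrable _ _)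
      (fun t' ht' => k1 t' ht')
  rw [intervalIntegral.integral_const, smul_eq_mul, intervalIntegral.integral_const_mul] at k2
  calc h * ∫ t in (0:ℝ)..l, (φ (c - t) + φ (c + t))
      = (l + h - l) * ∫ t in (0:ℝ)..l, (φ (c - t) + φ (c + t)) := by ring
    _ ≤ _ := k2

theorem meas_Icc (a b : ℝ) (hab : a ≤ b) :
    gaussianReal 0 1 (Icc a b) = ENNReal.ofReal (∫ x in a..b, φ x) := by
  rw [gaussianReal_apply_eq_integral 0 one_ne_zero, intervalIntegral.integral_of_le hab,
    integral_Icc_eq_integral_Ioc]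
  rfl

theorem meas_Ioc (a b : ℝ) (hab : a ≤ b) :
    gaussianReal 0 1 (Ioc a b) = ENNReal.ofReal (∫ x in a..b, φ x) := by
  rw [gaussianReal_apply_eq_integral 0 one_ne_zero, intervalIntegral.integral_of_le hab]
  rfl

theorem meas_Ico (a b : ℝ) (hab : a ≤ b) :
    gaussianReal 0 1 (Ico a b) = ENNReal.ofReal (∫ x in a..b, φ x) := by
  rw [gaussianReal_apply_eq_integral 0 one_ne_zero, intervalIntegral.integral_of_le hab,
    integral_Ico_eq_integral_Ioc]
  rfl

/-- outer layer of thickness `1/100` -/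
def outer (I : Set ℝ) : Set ℝ := {z | z ∉ I ∧ ∃ t ∈ Icc (-(1/100) : ℝ) (1/100), z - t ∈ I}

open Classical in
/-- the set itself if it has no two points at distance `d` -/
noncomputable def short (d : ℝ) (I : Set ℝ) : Set ℝ := if ∃ p ∈ I, p + d ∈ I then ∅ else I

theorem chord_Icc (a b : ℝ) (hab : a ≤ b) (hs : b - a ≤ 2/5) :
    gaussianReal 0 1 (Icc a b) ≤ ENNReal.ofReal (310 / 3 * ((b - a) / 2)) *
      gaussianReal 0 1 (outer (Icc a b)) := by
  have h1 : Ico (a - 1/100) a ∪ Ioc b (b + 1/100) ⊆ outer (Icc a b) := by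
    rintro z (hz | hz)
    · refine ⟨fun h => absurd hz.2 (not_lt.2 h.1), z - a, ⟨by linarith [hz.1], by linarith [hz.2]⟩, ?_⟩
      rw [sub_sub_cancel]; exact ⟨le_rfl, hab⟩
    · refine ⟨fun h => absurd hz.1 (not_lt.2 h.2), z - b, ⟨by linarith [hz.1], by linarith [hz.2]⟩, ?_⟩
      rw [sub_sub_cancel]; exact ⟨hab, le_rfl⟩
  have h2 : gaussianReal 0 1 (Ico (a - 1/100) a ∪ Ioc b (b + 1/100)) =
      ENNReal.ofReal ((∫ x in (a - 1/100)..a, φ x) + ∫ x in b..(b + 1/100), φ x) := by
    rw [measure_union _ measurableSet_Ioc, meas_Ico _ _ (by linarith), meas_Ioc _ _ (by linarith),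
      ENNReal.ofReal_add]
    · exact intervalIntegral.integral_nonneg (by linarith) (fun x _ => φ_nonneg x)
    · exact intervalIntegral.integral_nonneg (by linarith) (fun x _ => φ_nonneg x)
    · rw [Set.disjoint_left]
      intro z hz hz'
      linarith [hz.2, hz'.1]
  refine le_trans ?_ (mul_le_mul_right (measure_mono h1) _)
  rw [h2, meas_Icc a b hab, ← ENNReal.ofReal_mul (by linarith)]
  apply ENNReal.ofReal_le_ofReal
  have := chord_real a b (1/100) hab (by norm_num) (by linarith)
  nlinarith [this]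

/-- the chordwise inequality -/
theorem chord_ineq (I : Set ℝ) (hc : IsClosed I) (ho : I.OrdConnected) :
    2 * gaussianReal 0 1 (short (1/5) I) + gaussianReal 0 1 (short (2/5) I) ≤
      31 * gaussianReal 0 1 (outer I) := by
  classical
  rcases I.eq_empty_or_nonempty with rfl | hne
  · have h1 : short (1/5) (∅ : Set ℝ) = ∅ := by unfold short; split_ifs <;> rfl
    have h2 : short (2/5) (∅ : Set ℝ) = ∅ := by unfold short; split_ifs <;> rfl
    rw [h1, h2]; simp
  by_cases hL : ∃ p ∈ I, p + 2/5 ∈ I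
  · have hL' : ∃ p ∈ I, p + 1/5 ∈ I := by
      obtain ⟨p, hp, hp'⟩ := hL
      exact ⟨p, hp, ho.out hp hp' ⟨by linarith, by linarith⟩⟩
    have h1 : short (1/5) I = ∅ := if_pos hL'
    have h2 : short (2/5) I = ∅ := if_pos hL
    rw [h1, h2]; simp
  · -- bounded
    obtain ⟨q, hq⟩ := hne
    have hlt : ∀ x ∈ I, ∀ y ∈ I, y - x ≤ 2/5 := by
      intro x hx y hy
      by_contra hcon
      push Not at hcon
      exact hL ⟨x, hx, ho.out hx hy ⟨by linarith, by linarith⟩⟩
    have hcomp : IsCompact I := by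
      apply Metric.isCompact_of_isClosed_isBounded hc
      rw [Metric.isBounded_iff_subset_closedBall q]
      refine ⟨2/5, fun x hx => ?_⟩
      rw [Metric.mem_closedBall, Real.dist_eq, abs_le]
      constructor
      · linarith [hlt x hx q hq]
      · linarith [hlt q hq x hx]
    obtain ⟨a, ha, hamin⟩ := hcomp.exists_isLeast ⟨q, hq⟩
    obtain ⟨b, hb, hbmax⟩ := hcomp.exists_isGreatest ⟨q, hq⟩
    have hI : I = Icc a b := by
      apply Subset.antisymm
      · intro x hx; exact ⟨hamin hx, hbmax hx⟩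
      · exact ho.out ha hb
    have hab : a ≤ b := hamin hb
    have hba := hlt a ha b hb
    have key := chord_Icc a b hab hba
    rw [← hI] at key
    have h2 : short (2/5) I = I := if_neg hL
    rw [h2]
    by_cases hS : ∃ p ∈ I, p + 1/5 ∈ I
    · have h1 : short (1/5) I = ∅ := if_pos hS
      rw [h1, measure_empty, mul_zero, zero_add]
      refine key.trans (mul_le_mul_left ?_ _)
      rw [show (31 : ENNReal) = ENNReal.ofReal 31 by simp]
      exact ENNReal.ofReal_le_ofReal (by linarith)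
    · have h1 : short (1/5) I = I := if_neg hS
      rw [h1]
      have hba' : b - a ≤ 1/5 := by
        by_contra hcon
        push Not at hcon
        exact hS ⟨a, ha, ho.out ha hb ⟨by linarith, by linarith⟩⟩
      calc 2 * gaussianReal 0 1 I + gaussianReal 0 1 I = 3 * gaussianReal 0 1 I := by ring
        _ ≤ 3 * (ENNReal.ofReal (310 / 3 * ((b - a) / 2)) * gaussianReal 0 1 (outer I)) :=
            mul_le_mul_right key _
        _ = ENNReal.ofReal (3 * (310 / 3 * ((b - a) / 2))) * gaussianReal 0 1 (outer I) := by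
            rw [ENNReal.ofReal_mul (by norm_num : (0:ℝ) ≤ 3), mul_assoc]; simp
        _ ≤ 31 * gaussianReal 0 1 (outer I) := by
            refine mul_le_mul_left ?_ _
            rw [show (31 : ENNReal) = ENNReal.ofReal 31 by simp]
            exact ENNReal.ofReal_le_ofReal (by linarith)

end Pool.Agent.H460BZ
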