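import Pool.Agent.H460BZ.Anch2

namespace Pool.Agent.H460BZ

open Finset

/-- rank in coordinate `i`: the number of points with smaller `i`-th coordinate -/
noncomputable def rk {d : ℕ} (P : Finset (Fin d → ℝ)) (i : Fin d) (x : ℝ) : ℕ :=
  (P.filter (fun q => q i < x)).card

noncomputable def rk' {d : ℕ} (P : Finset (Fin d → ℝ)) (i : Fin d) (x : ℝ) : ℕ :=
  (P.filter (fun q => q i ≤ x)).card

theorem rk_le {d : ℕ} (P : Finset (Fin d → ℝ)) (i : Fin d) (x : ℝ) : rk P i x ≤ P.card :=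
  Finset.card_filter_le _ _

theorem rk'_le {d : ℕ} (P : Finset (Fin d → ℝ)) (i : Fin d) (x : ℝ) : rk' P i x ≤ P.card :=
  Finset.card_filter_le _ _

theorem rk_lt_rk {d : ℕ} (P : Finset (Fin d → ℝ)) (i : Fin d) (p : Fin d → ℝ) (hp : p ∈ P) (a : ℝ) :
    rk P i (p i) < rk P i a ↔ p i < a := by
  constructor
  · intro h
    by_contra hc
    push Not at hc
    refine absurd h (not_lt.mpr (Finset.card_le_card fun q hq => ?_))
    rw [Finset.mem_filter] at hq ⊢
    exact ⟨hq.1, lt_of_lt_of_le hq.2 hc⟩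
  · intro h
    refine Finset.card_lt_card ⟨fun q hq => ?_, fun hs => ?_⟩
    · rw [Finset.mem_filter] at hq ⊢
      exact ⟨hq.1, hq.2.trans h⟩
    · have := hs (Finset.mem_filter.mpr ⟨hp, h⟩)
      rw [Finset.mem_filter] at this
      exact lt_irrefl _ this.2

theorem rk_lt_rk' {d : ℕ} (P : Finset (Fin d → ℝ)) (i : Fin d) (p : Fin d → ℝ) (hp : p ∈ P) (b : ℝ) :
    rk P i (p i) < rk' P i b ↔ p i ≤ b := by
  constructor
  · intro h
    by_contra hc
    push Not at hc
    refine absurd h (not_lt.mpr (Finset.card_le_card fun q hq => ?_))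
    rw [Finset.mem_filter] at hq ⊢
    exact ⟨hq.1, lt_of_le_of_lt hq.2 hc⟩
  · intro h
    refine Finset.card_lt_card ⟨fun q hq => ?_, fun hs => ?_⟩
    · rw [Finset.mem_filter] at hq ⊢
      exact ⟨hq.1, (hq.2.trans_le h).le⟩
    · have := hs (Finset.mem_filter.mpr ⟨hp, h⟩)
      rw [Finset.mem_filter] at this
      exact lt_irrefl _ this.2

/-- initial segments of a monotone tuple -/
theorem init_seg {n : ℕ} (g : Fin n → ℝ) (hg : Monotone g) (A : ℝ → Prop)
    (hA : ∀ x y, x ≤ y → A y → A x) : ∃ m ≤ n, ∀ k : Fin n, A (g k) ↔ (k : ℕ) < m := by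
  classical
  by_cases h : ∀ k, A (g k)
  · exact ⟨n, le_rfl, fun k => ⟨fun _ => k.2, fun _ => h k⟩⟩
  · push Not at h
    have hex : ∃ k : ℕ, ∃ hk : k < n, ¬ A (g ⟨k, hk⟩) := by
      obtain ⟨k, hk⟩ := h
      exact ⟨k, k.2, hk⟩
    obtain ⟨h1, h2⟩ := Nat.find_spec hex
    refine ⟨Nat.find hex, h1.le, fun k => ⟨fun hk => ?_, fun hk => ?_⟩⟩
    · by_contra hc
      push Not at hc
      exact h2 (hA _ _ (hg (show (⟨Nat.find hex, h1⟩ : Fin n) ≤ k from hc)) hk)
    · by_contra hc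
      exact Nat.find_min hex hk ⟨k.2, hc⟩

/-- the sorted enumeration -/
theorem enum {d n : ℕ} (P : Finset (Fin d → ℝ)) (hP : P.card = n) (i : Fin d) :
    ∃ e : Fin n ≃ P, Monotone (fun k => (e k : Fin d → ℝ) i) := by
  let e : Fin n ≃ P := (P.equivFinOfCardEq hP).symm
  let f : Fin n → ℝ := fun k => (e k : Fin d → ℝ) i
  exact ⟨(Tuple.sort f).trans e, Tuple.monotone_sort f⟩

theorem expand {D n : ℕ} (σ : ℕ → ℤ) (r : Fin D → ℕ → ℕ) (B : ℝ)
    (h : ∀ k ≤ n, ∀ m : Fin D → ℕ, (∀ i, m i ≤ n) →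
      |∑ j ∈ Finset.range k, (σ j : ℝ) * ∏ i, (if r i j < m i then (1:ℝ) else 0)| ≤ B)
    (M1 M2 : ℕ) (h1 : M1 ≤ n) (h2 : M2 ≤ n) (m1 m2 : Fin D → ℕ) (hm1 : ∀ i, m1 i ≤ n)
    (hm2 : ∀ i, m2 i ≤ n) :
    |∑ j ∈ Finset.range n, (σ j : ℝ) * (((if j < M1 then (1:ℝ) else 0) - (if j < M2 then 1 else 0)) *
      ∏ i, ((if r i j < m1 i then (1:ℝ) else 0) - (if r i j < m2 i then (1:ℝ) else 0)))| ≤
      2 ^ (D+1) * B := by
  -- prefix version
  have key : ∀ M ≤ n, |∑ j ∈ Finset.range n, (σ j : ℝ) * ((if j < M then (1:ℝ) else 0) *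
      ∏ i, ((if r i j < m1 i then (1:ℝ) else 0) - (if r i j < m2 i then (1:ℝ) else 0)))| ≤
      2 ^ D * B := by
    intro M hM
    have e1 : ∀ j, ∏ i, ((if r i j < m1 i then (1:ℝ) else 0) - (if r i j < m2 i then (1:ℝ) else 0)) =
        ∑ s : Fin D → Bool, ∏ i, ((if s i then (1:ℝ) else -1) *
          (if r i j < (if s i then m1 i else m2 i) then (1:ℝ) else 0)) := by
      intro j
      rw [sum_prod_pi (fun i (s : Bool) => ((if s then (1:ℝ) else -1) *
          (if r i j < (if s then m1 i else m2 i) then (1:ℝ) else 0)))]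
      refine Finset.prod_congr rfl fun i _ => ?_
      rw [Fintype.sum_bool]
      simp only [if_true, Bool.false_eq_true, if_false]
      ring
    have e2 : ∑ j ∈ Finset.range n, (σ j : ℝ) * ((if j < M then (1:ℝ) else 0) *
        ∏ i, ((if r i j < m1 i then (1:ℝ) else 0) - (if r i j < m2 i then (1:ℝ) else 0))) =
        ∑ s : Fin D → Bool, (∏ i, (if s i then (1:ℝ) else -1)) * ∑ j ∈ range M, (σ j : ℝ) *
          ∏ i, (if r i j < (if s i then m1 i else m2 i) then (1:ℝ) else 0) := by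
      have e3 : ∑ j ∈ Finset.range n, (σ j : ℝ) * ((if j < M then (1:ℝ) else 0) *
        ∏ i, ((if r i j < m1 i then (1:ℝ) else 0) - (if r i j < m2 i then (1:ℝ) else 0))) =
        ∑ j ∈ Finset.range M, (σ j : ℝ) *
        ∏ i, ((if r i j < m1 i then (1:ℝ) else 0) - (if r i j < m2 i then (1:ℝ) else 0)) := by
        have : range M = (range n).filter (fun j => j < M) := by
          ext j; simp only [Finset.mem_range, Finset.mem_filter]; omega
        rw [this, Finset.sum_filter]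
        refine Finset.sum_congr rfl fun j _ => ?_
        split_ifs <;> simp
      rw [e3]
      simp_rw [e1, Finset.mul_sum]
      rw [Finset.sum_comm]
      refine Finset.sum_congr rfl fun s _ => Finset.sum_congr rfl fun j _ => ?_
      rw [Finset.prod_mul_distrib]
      ring
    rw [e2]
    refine (Finset.abs_sum_le_sum_abs _ _).trans ?_
    have e4 : ∀ s ∈ (Finset.univ : Finset (Fin D → Bool)), |(∏ i, (if s i then (1:ℝ) else -1)) * ∑ j ∈ range M, (σ j : ℝ) *
          ∏ i, (if r i j < (if s i then m1 i else m2 i) then (1:ℝ) else 0)| ≤ B := by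
      intro s _
      rw [abs_mul, Finset.abs_prod]
      have : ∏ i, |if s i then (1:ℝ) else -1| = 1 := by
        refine Finset.prod_eq_one fun i _ => ?_
        split_ifs <;> simp
      rw [this, one_mul]
      refine h M hM (fun i => if s i then m1 i else m2 i) fun i => ?_
      split_ifs
      · exact hm1 i
      · exact hm2 i
    refine (Finset.sum_le_sum e4).trans ?_
    simp
  have k1 := key M1 h1
  have k2 := key M2 h2
  have e : ∑ j ∈ Finset.range n, (σ j : ℝ) * (((if j < M1 then (1:ℝ) else 0) - (if j < M2 then 1 else 0)) *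
      ∏ i, ((if r i j < m1 i then (1:ℝ) else 0) - (if r i j < m2 i then (1:ℝ) else 0))) =
    ∑ j ∈ Finset.range n, (σ j : ℝ) * ((if j < M1 then (1:ℝ) else 0) *
      ∏ i, ((if r i j < m1 i then (1:ℝ) else 0) - (if r i j < m2 i then (1:ℝ) else 0))) -
    ∑ j ∈ Finset.range n, (σ j : ℝ) * ((if j < M2 then (1:ℝ) else 0) *
      ∏ i, ((if r i j < m1 i then (1:ℝ) else 0) - (if r i j < m2 i then (1:ℝ) else 0))) := by
    rw [← Finset.sum_sub_distrib]
    refine Finset.sum_congr rfl fun j _ => ?_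
    ring
  rw [e]
  refine (abs_sub _ _).trans ?_
  rw [pow_succ]
  linarith

open Classical in
theorem upper_P (D n : ℕ) (P : Finset (Fin (D+1) → ℝ)) (hP : P.card = n) (H : ℕ) (hH : n < 2^H)
    (hH0 : 0 < H) (R : ℝ) (hR : 0 ≤ R)
    (hT : ((n:ℝ)+1) * (2 * ((n:ℝ)+1)^D * Real.exp (-R^2/(2*(H:ℝ)^D))) ≤ 1/100) :
    ∃ χ : (Fin (D+1) → ℝ) → ℤ, (∀ p, χ p = 1 ∨ χ p = -1) ∧
      ∀ a b : Fin (D+1) → ℝ, a ≤ b → |((∑ p ∈ P with p ∈ Set.Icc a b, χ p : ℤ) : ℝ)| ≤
        2^(D+1) * (100 * Real.sqrt ((H:ℝ)^D) * R) := by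
  obtain ⟨e, he⟩ := enum P hP 0
  let r : Fin D → ℕ → ℕ := fun i k => if hk : k < n then rk P i.succ ((e ⟨k, hk⟩ : Fin (D+1) → ℝ) i.succ) else 0
  obtain ⟨σ, hσ, hB⟩ := anchored D n H hH hH0 r (by
    intro i k hk
    simp only [r, dif_pos hk]
    exact (rk_le _ _ _).trans hP.le) R hR hT
  refine ⟨fun p => if hp : p ∈ P then σ (e.symm ⟨p, hp⟩) else 1, fun p => ?_, fun a b hab => ?_⟩
  · dsimp only
    split_ifs
    · exact hσ _
    · left; rfl
  · obtain ⟨M1, hM1, hM1'⟩ := init_seg _ he (fun x => x ≤ b 0) (fun x y hxy hy => hxy.trans hy)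
    obtain ⟨M2, hM2, hM2'⟩ := init_seg _ he (fun x => x < a 0) (fun x y hxy hy => hxy.trans_lt hy)
    have hmain := expand σ r _ hB M1 M2 hM1 hM2 (fun i => rk' P i.succ (b i.succ))
      (fun i => rk P i.succ (a i.succ)) (fun i => (rk'_le _ _ _).trans hP.le)
      (fun i => (rk_le _ _ _).trans hP.le)
    have heq : ((∑ p ∈ P with p ∈ Set.Icc a b, (if hp : p ∈ P then σ (e.symm ⟨p, hp⟩) else 1) : ℤ) : ℝ) =
      ∑ j ∈ Finset.range n, (σ j : ℝ) * (((if j < M1 then (1:ℝ) else 0) - (if j < M2 then 1 else 0)) *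
      ∏ i, ((if r i j < rk' P i.succ (b i.succ) then (1:ℝ) else 0) -
        (if r i j < rk P i.succ (a i.succ) then (1:ℝ) else 0))) := by
      rw [← Fin.sum_univ_eq_sum_range (fun j => (σ j : ℝ) * (((if j < M1 then (1:ℝ) else 0) - (if j < M2 then 1 else 0)) *
      ∏ i, ((if r i j < rk' P i.succ (b i.succ) then (1:ℝ) else 0) -
        (if r i j < rk P i.succ (a i.succ) then (1:ℝ) else 0))))]
      rw [Finset.sum_filter]
      push_cast
      rw [← Finset.sum_coe_sort P, ← e.sum_comp]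
      refine Finset.sum_congr rfl fun j _ => ?_
      have hpj : (e j : Fin (D+1) → ℝ) ∈ P := (e j).2
      have hs : (e.symm ⟨(e j : Fin (D+1) → ℝ), hpj⟩ : ℕ) = j := by
        simp
      rw [dif_pos hpj, hs]
      have hr : ∀ i : Fin D, r i j = rk P i.succ ((e j : Fin (D+1) → ℝ) i.succ) := by
        intro i
        simp [r]
      have f0 : ((if (j:ℕ) < M1 then (1:ℝ) else 0) - (if (j:ℕ) < M2 then 1 else 0)) =
          if (a 0 ≤ (e j : Fin (D+1) → ℝ) 0 ∧ (e j : Fin (D+1) → ℝ) 0 ≤ b 0) then 1 else 0 := by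
        have c1 := hM1' j
        have c2 := hM2' j
        rw [if_congr c1.symm rfl rfl, if_congr c2.symm rfl rfl]
        have := hab 0
        by_cases x1 : (e j : Fin (D+1) → ℝ) 0 ≤ b 0
        · by_cases x2 : (e j : Fin (D+1) → ℝ) 0 < a 0
          · rw [if_pos x1, if_pos x2, if_neg (by intro h; linarith [h.1])]; norm_num
          · rw [if_pos x1, if_neg x2, if_pos ⟨not_lt.mp x2, x1⟩]; norm_num
        · rw [if_neg x1, if_neg (fun h => x1 (h.le.trans this)), if_neg (fun h => x1 h.2)]; norm_num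
      have fi : ∀ i : Fin D, ((if r i j < rk' P i.succ (b i.succ) then (1:ℝ) else 0) -
        (if r i j < rk P i.succ (a i.succ) then (1:ℝ) else 0)) =
          if (a i.succ ≤ (e j : Fin (D+1) → ℝ) i.succ ∧ (e j : Fin (D+1) → ℝ) i.succ ≤ b i.succ) then 1 else 0 := by
        intro i
        rw [hr i]
        have c1 := rk_lt_rk' P i.succ (e j : Fin (D+1) → ℝ) hpj (b i.succ)
        have c2 := rk_lt_rk P i.succ (e j : Fin (D+1) → ℝ) hpj (a i.succ)
        rw [if_congr c1 rfl rfl, if_congr c2 rfl rfl]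
        have := hab i.succ
        by_cases x1 : (e j : Fin (D+1) → ℝ) i.succ ≤ b i.succ
        · by_cases x2 : (e j : Fin (D+1) → ℝ) i.succ < a i.succ
          · rw [if_pos x1, if_pos x2, if_neg (by intro h; linarith [h.1])]; norm_num
          · rw [if_pos x1, if_neg x2, if_pos ⟨not_lt.mp x2, x1⟩]; norm_num
        · rw [if_neg x1, if_neg (fun h => x1 (h.le.trans this)), if_neg (fun h => x1 h.2)]; norm_num
      rw [f0, Finset.prod_congr rfl (fun i _ => fi i), Finset.prod_boole]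
      by_cases hin : (e j : Fin (D+1) → ℝ) ∈ Set.Icc a b
      · rw [if_pos hin, if_pos ⟨hin.1 0, hin.2 0⟩, if_pos (fun i _ => ⟨hin.1 i.succ, hin.2 i.succ⟩)]
        ring
      · rw [if_neg hin]
        by_cases h0 : (a 0 ≤ (e j : Fin (D+1) → ℝ) 0 ∧ (e j : Fin (D+1) → ℝ) 0 ≤ b 0)
        · have hne : ¬ ∀ i ∈ (Finset.univ : Finset (Fin D)), a i.succ ≤ (e j : Fin (D+1) → ℝ) i.succ ∧ (e j : Fin (D+1) → ℝ) i.succ ≤ b i.succ := by
            intro hc
            apply hin
            constructor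
            · intro i
              exact Fin.cases h0.1 (fun i => (hc i (Finset.mem_univ _)).1) i
            · intro i
              exact Fin.cases h0.2 (fun i => (hc i (Finset.mem_univ _)).2) i
          rw [if_neg hne]
          simp
        · rw [if_neg h0]; simp
    rw [heq]
    exact hmain

end Pool.Agent.H460BZ
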