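import Pool.Agent.H460BZ.Body

/-!
# Banaszczyk's lemma with absolute constants
-/

set_option autoImplicit false

namespace Pool.Agent.H460BZ

open MeasureTheory ProbabilityTheory Set
open scoped ENNReal Pointwise
open Pool.Agent.H902R3.ZA (gm)

theorem layers (M : ℕ) (K : Set (EE (M + 1))) (hK : IsClosed K) (hc : Convex ℝ K)
    (e : EE (M + 1)) (he : ‖e‖ = 1) (u : EE (M + 1)) (hu : u = (1 / 100 : ℝ) • e) :
    2 * stdGaussian (EE (M + 1)) (K \ KL K u 20) + stdGaussian (EE (M + 1)) (K \ KL K u 40) ≤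
      31 * stdGaussian (EE (M + 1)) (sg K u (-1) 1 \ K) := by
  classical
  -- an orthonormal basis with first vector `e`
  obtain ⟨b, hb⟩ := Orthonormal.exists_orthonormalBasis_extension_of_card_eq
    (𝕜 := ℝ) (E := EE (M + 1)) (ι := Fin (M + 1)) (by simp) (v := fun _ => e) (s := {0}) (by
      constructor
      · rintro ⟨i, hi⟩; simpa using he
      · rintro ⟨i, hi⟩ ⟨j, hj⟩ hij
        exfalso; apply hij
        rw [mem_singleton_iff] at hi hj
        exact Subtype.ext (hi.trans hj.symm))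
  have hb0 : b 0 = e := hb 0 rfl
  have m1 : MeasurableSet (K \ KL K u 20) :=
    hK.measurableSet.diff (sg_closed (lng_closed hK u _) u _ _).measurableSet
  have m2 : MeasurableSet (K \ KL K u 40) :=
    hK.measurableSet.diff (sg_closed (lng_closed hK u _) u _ _).measurableSet
  have m3 : MeasurableSet (sg K u (-1) 1 \ K) := (sg_closed hK u _ _).measurableSet.diff hK.measurableSet
  have f1 := fubini M b _ m1
  have f2 := fubini M b _ m2
  have f3 := fubini M b _ m3
  rw [hb0] at f1 f2 f3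
  have mm : ∀ A : Set (EE (M + 1)), MeasurableSet A → Measurable (fun y : Fin M → ℝ =>
      gaussianReal 0 1 {z : ℝ | z • e + ∑ j, y j • b (Fin.succ j) ∈ A}) := by
    intro A hA
    have hmeas : Measurable (fun q : ℝ × (Fin M → ℝ) => q.1 • e + ∑ j, q.2 j • b (Fin.succ j)) := by
      fun_prop
    exact measurable_measure_prodMk_right (hmeas hA)
  rw [f1, f2, f3, ← lintegral_const_mul _ (mm _ m1), ← lintegral_add_right _ (mm _ m2),
    ← lintegral_const_mul _ (mm _ m3)]
  refine lintegral_mono (fun y => ?_)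
  set w := ∑ j, y j • b (Fin.succ j) with hw
  set I : Set ℝ := {z : ℝ | z • e + w ∈ K} with hI
  have hIc : IsClosed I := hK.preimage (by fun_prop)
  have hIo : I.OrdConnected := by
    apply Convex.ordConnected
    intro x hx z hz a c ha hc' hac
    have := hc hx hz ha hc' hac
    have e1 : a • (x • e + w) + c • (z • e + w) = (a • x + c • z) • e + w := by
      have hc2 : c = 1 - a := by linarith
      rw [hc2, smul_eq_mul, smul_eq_mul]
      module
    show (a • x + c • z) • e + w ∈ K
    rw [← e1]; exact this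
  have key := chord_ineq I hIc hIo
  -- long chords
  have hlong : ∀ (T d : ℝ), 0 < d → d = T / 100 → ∀ z ∈ I, (∃ p ∈ I, p + d ∈ I) →
      z • e + w ∈ KL K u T := by
    rintro T d hd0 hd z hz ⟨p, hp, hpd⟩
    -- there is a chord of length `d` through `z`
    have h1 : ∃ q ∈ I, q + d ∈ I ∧ z ∈ Icc q (q + d) := by
      rcases le_total z p with h | h
      · exact ⟨z, hz, hIo.out hz hpd ⟨by linarith, by linarith⟩, le_rfl, by linarith⟩
      · rcases le_total z (p + d) with h' | h'
        · exact ⟨p, hp, hpd, h, h'⟩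
        · exact ⟨z - d, hIo.out hp hz ⟨by linarith, by linarith⟩, by rwa [sub_add_cancel],
            by linarith, by linarith⟩
    obtain ⟨q, hq, hqd, hzq⟩ := h1
    refine ⟨q • e + w, ⟨hq, ?_⟩, 100 * (z - q), ⟨by linarith [hzq.1], by linarith [hzq.2]⟩, ?_⟩
    · have : q • e + w + T • u = (q + d) • e + w := by
        rw [hu, smul_smul, hd, add_smul, show T * (1 / 100) = T / 100 by ring]; abel
      rw [this]; exact hqd
    · rw [hu, smul_smul, show 100 * (z - q) * (1 / 100) = z - q by ring, sub_smul]; abel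
  have g1 : {z : ℝ | z • e + w ∈ K \ KL K u 20} ⊆ short (1/5) I := by
    rintro z ⟨hz, hz'⟩
    have hno : ¬ ∃ p ∈ I, p + 1/5 ∈ I := fun h =>
      hz' (hlong 20 (1/5) (by norm_num) (by norm_num) z hz h)
    unfold short; rw [if_neg hno]; exact hz
  have g2 : {z : ℝ | z • e + w ∈ K \ KL K u 40} ⊆ short (2/5) I := by
    rintro z ⟨hz, hz'⟩
    have hno : ¬ ∃ p ∈ I, p + 2/5 ∈ I := fun h =>
      hz' (hlong 40 (2/5) (by norm_num) (by norm_num) z hz h)
    unfold short; rw [if_neg hno]; exact hz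
  have g3 : outer I ⊆ {z : ℝ | z • e + w ∈ sg K u (-1) 1 \ K} := by
    rintro z ⟨hz, t, ht, hzt⟩
    refine ⟨⟨(z - t) • e + w, hzt, 100 * t, ⟨by linarith [ht.1], by linarith [ht.2]⟩, ?_⟩, hz⟩
    rw [hu, smul_smul, show 100 * t * (1 / 100) = t by ring, sub_smul]; abel
  calc 2 * gaussianReal 0 1 {z : ℝ | z • e + w ∈ K \ KL K u 20} +
        gaussianReal 0 1 {z : ℝ | z • e + w ∈ K \ KL K u 40}
      ≤ 2 * gaussianReal 0 1 (short (1/5) I) + gaussianReal 0 1 (short (2/5) I) :=
        add_le_add (mul_le_mul_right (measure_mono g1) _) (measure_mono g2)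
    _ ≤ 31 * gaussianReal 0 1 (outer I) := key
    _ ≤ _ := mul_le_mul_right (measure_mono g3) _

/-- final step of the inequality -/
theorem final_step (n : ℕ) (K : Set (EE n)) (hK : IsClosed K) (hc : Convex ℝ K) (u : EE n)
    (m : ℕ) (hm : 2 ≤ m) (a g z : ℝ)
    (ha : (stdGaussian (EE n) K).toReal = a)
    (hg : (stdGaussian (EE n) (sg K u (-1) 1 \ K)).toReal = g)
    (hz : (stdGaussian (EE n) (K \ KL K u (2 * m))).toReal = z)
    (hz0 : z ≤ a)
    (hnum : a ^ m ≤ (a + g) ^ (m - 1) * (a - z)) :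
    stdGaussian (EE n) K ≤ stdGaussian (EE n) (star K u) := by
  have hm0 : (0:ℝ) < m := by exact_mod_cast (by omega : 0 < m)
  have hm1 : (1:ℝ) < m := by exact_mod_cast (by omega : 1 < m)
  have hθ0 : (0:ℝ) < 1 / m := by positivity
  have hθ1 : (1:ℝ) / m < 1 := by rw [div_lt_one hm0]; exact hm1
  have mK := hK.measurableSet
  have mF := (sg_closed hK u (-1) 1).measurableSet
  have mL : MeasurableSet (KL K u (2 * m)) :=
    (sg_closed (lng_closed hK u (2 * m)) u 0 (2 * m)).measurableSet
  have hinc := incl hc u (1 / m) hθ0 hθ1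
  have e2 : (2:ℝ) / (1 / m) = 2 * m := by field_simp
  rw [e2] at hinc
  have key := gauss_bm n (1 / m) hθ0 hθ1 _ _ _ mF mL (star_closed hK u).measurableSet hinc
  -- real numbers
  have hKF : K ⊆ sg K u (-1) 1 := fun x hx => ⟨x, hx, 0, ⟨by norm_num, by norm_num⟩, by simp⟩
  have hLK : KL K u (2 * m) ⊆ K := by
    rintro _ ⟨p, ⟨hp, hp'⟩, t, ht, rfl⟩
    have h2m : (0:ℝ) < 2 * m := by positivity
    have := hc hp hp' (a := 1 - t / (2 * m)) (b := t / (2 * m))
      (by rw [sub_nonneg, div_le_one h2m]; exact ht.2) (div_nonneg ht.1 h2m.le) (by ring)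
    have e : (1 - t / (2 * m)) • p + (t / (2 * m)) • (p + (2 * (m:ℝ)) • u) = p + t • u := by
      rw [smul_add, smul_smul, div_mul_cancel₀ _ h2m.ne', sub_smul, one_smul]; abel
    rwa [e] at this
  have hF : (stdGaussian (EE n) (sg K u (-1) 1)).toReal = a + g := by
    rw [← ha, ← hg, ← ENNReal.toReal_add (measure_ne_top _ _) (measure_ne_top _ _),
      measure_add_sdiff mK.nullMeasurableSet, Set.union_eq_self_of_subset_left hKF]
  have hL : (stdGaussian (EE n) (KL K u (2 * m))).toReal = a - z := by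
    have h1 : stdGaussian (EE n) (KL K u (2 * m)) + stdGaussian (EE n) (K \ KL K u (2 * m)) =
        stdGaussian (EE n) K := by
      rw [measure_add_sdiff mL.nullMeasurableSet, Set.union_eq_self_of_subset_left hLK]
    have h2 := congrArg ENNReal.toReal h1
    rw [ENNReal.toReal_add (measure_ne_top _ _) (measure_ne_top _ _), ha, hz] at h2
    linarith
  have hg0 : 0 ≤ g := by rw [← hg]; exact ENNReal.toReal_nonneg
  have ha0 : 0 ≤ a := by rw [← ha]; exact ENNReal.toReal_nonneg
  have key2 := ENNReal.toReal_mono (measure_ne_top _ _) key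
  rw [ENNReal.toReal_mul, ← ENNReal.toReal_rpow, ← ENNReal.toReal_rpow, hF, hL] at key2
  set S := (stdGaussian (EE n) (star K u)).toReal with hS
  have hS0 : 0 ≤ S := ENNReal.toReal_nonneg
  have hF0 : 0 ≤ a + g := by linarith
  have hL0 : 0 ≤ a - z := by linarith
  have h3 : ((a + g) ^ (1 - 1 / (m:ℝ)) * (a - z) ^ (1 / (m:ℝ))) ^ m = (a + g) ^ (m - 1) * (a - z) := by
    rw [mul_pow, ← Real.rpow_natCast ((a + g) ^ (1 - 1 / (m:ℝ))) m, ← Real.rpow_mul hF0,
      ← Real.rpow_natCast ((a - z) ^ (1 / (m:ℝ))) m, ← Real.rpow_mul hL0,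
      one_div_mul_cancel hm0.ne', Real.rpow_one, sub_mul, one_div_mul_cancel hm0.ne', one_mul]
    congr 1
    rw [← Real.rpow_natCast, Nat.cast_sub (by omega : 1 ≤ m), Nat.cast_one]
  have h4 : a ^ m ≤ S ^ m := by
    calc a ^ m ≤ (a + g) ^ (m - 1) * (a - z) := hnum
      _ = ((a + g) ^ (1 - 1 / (m:ℝ)) * (a - z) ^ (1 / (m:ℝ))) ^ m := h3.symm
      _ ≤ S ^ m := pow_le_pow_left₀ (by positivity) key2 m
  have h5 : a ≤ S := (pow_le_pow_iff_left₀ ha0 hS0 (by omega)).1 h4
  rw [← ENNReal.toReal_le_toReal (measure_ne_top _ _) (measure_ne_top _ _), ha]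
  exact h5

/-- **Key lemma.** If `K` is a closed convex set of Gaussian measure at least `99/100` and
`‖u‖ = 1/100` then `K * u` has Gaussian measure at least that of `K`. -/
theorem key_lemma (n : ℕ) (K : Set (EE n)) (hK : IsClosed K) (hc : Convex ℝ K) (u : EE n)
    (hu : ‖u‖ = 1 / 100) (hm : 99 / 100 ≤ (stdGaussian (EE n) K).toReal) :
    stdGaussian (EE n) K ≤ stdGaussian (EE n) (star K u) := by
  rcases n with _ | M
  · exfalso
    have : u = 0 := Subsingleton.elim _ _
    rw [this, norm_zero] at hu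
    norm_num at hu
  set e : EE (M + 1) := (100 : ℝ) • u with he
  have hen : ‖e‖ = 1 := by rw [he, norm_smul, hu]; norm_num
  have hue : u = (1 / 100 : ℝ) • e := by rw [he, smul_smul]; norm_num
  have lay := layers M K hK hc e hen u hue
  set a := (stdGaussian (EE (M + 1)) K).toReal with ha
  set g := (stdGaussian (EE (M + 1)) (sg K u (-1) 1 \ K)).toReal with hg
  set z1 := (stdGaussian (EE (M + 1)) (K \ KL K u 20)).toReal with hz1
  set z2 := (stdGaussian (EE (M + 1)) (K \ KL K u 40)).toReal with hz2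
  have hlay : 2 * z1 + z2 ≤ 31 * g := by
    have h1 := ENNReal.toReal_mono (ENNReal.mul_ne_top (by simp) (measure_ne_top _ _)) lay
    rw [ENNReal.toReal_add (ENNReal.mul_ne_top (by simp) (measure_ne_top _ _)) (measure_ne_top _ _),
      ENNReal.toReal_mul, ENNReal.toReal_mul] at h1
    simpa using h1
  have hg0 : 0 ≤ g := ENNReal.toReal_nonneg
  have hag : a + g ≤ 1 := by
    have h1 : stdGaussian (EE (M + 1)) K + stdGaussian (EE (M + 1)) (sg K u (-1) 1 \ K) ≤ 1 := by
      rw [measure_add_sdiff hK.measurableSet.nullMeasurableSet]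
      exact prob_le_one
    have h2 := ENNReal.toReal_mono ENNReal.one_ne_top h1
    rw [ENNReal.toReal_add (measure_ne_top _ _) (measure_ne_top _ _), ENNReal.toReal_one] at h2
    exact h2
  have hg1 : g ≤ 1 / 100 := by linarith
  rcases le_or_gt z1 (31 / 4 * g) with h | h
  · refine final_step (M + 1) K hK hc u 10 (by norm_num) a g z1 rfl rfl ?_ ?_ ?_
    · rw [hz1]; norm_num
    · linarith
    · have p1 : a ^ 9 + 9 * a ^ 8 * g ≤ (a + g) ^ 9 := by
        have e1 : (a + g) ^ 9 = a ^ 9 + 9 * a ^ 8 * g + g ^ 2 * (36 * a ^ 7 + 84 * a ^ 6 * g +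
          126 * a ^ 5 * g ^ 2 + 126 * a ^ 4 * g ^ 3 + 84 * a ^ 3 * g ^ 4 + 36 * a ^ 2 * g ^ 5 +
          9 * a * g ^ 6 + g ^ 7) := by ring
        have ha0 : 0 ≤ a := by linarith
        rw [e1]
        have : 0 ≤ g ^ 2 * (36 * a ^ 7 + 84 * a ^ 6 * g +
          126 * a ^ 5 * g ^ 2 + 126 * a ^ 4 * g ^ 3 + 84 * a ^ 3 * g ^ 4 + 36 * a ^ 2 * g ^ 5 +
          9 * a * g ^ 6 + g ^ 7) := by positivity
        linarith
      have ha0 : 0 ≤ a := by linarith
      have hz' : 0 ≤ a - 31 / 4 * g := by linarith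
      calc a ^ 10 ≤ (a ^ 9 + 9 * a ^ 8 * g) * (a - 31 / 4 * g) := by
            have e1 : (a ^ 9 + 9 * a ^ 8 * g) * (a - 31 / 4 * g) =
              a ^ 10 + a ^ 8 * (g * (5 / 4 * a - 279 / 4 * g)) := by ring
            rw [e1]
            have : 0 ≤ a ^ 8 * (g * (5 / 4 * a - 279 / 4 * g)) := by
              have h9 : 0 ≤ 5 / 4 * a - 279 / 4 * g := by linarith
              positivity
            linarith
        _ ≤ (a + g) ^ 9 * (a - 31 / 4 * g) := mul_le_mul_of_nonneg_right p1 hz'
        _ ≤ (a + g) ^ (10 - 1) * (a - z1) := by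
            apply mul_le_mul_of_nonneg_left _ (by positivity)
            linarith
  · have h2 : z2 ≤ 31 / 2 * g := by linarith
    refine final_step (M + 1) K hK hc u 20 (by norm_num) a g z2 rfl rfl ?_ ?_ ?_
    · rw [hz2]; norm_num
    · linarith
    · have ha0 : 0 ≤ a := by linarith
      have p1 : a ^ 18 * (a + 19 * g) ≤ (a + g) ^ 19 := by
        rcases ha0.eq_or_lt with h0 | hpos
        · rw [← h0] at hm; norm_num at hm
        · have hb := one_add_mul_le_pow (a := g / a) (by have := div_nonneg hg0 hpos.le; linarith) 19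
          have e1 : (a + g) ^ 19 = a ^ 19 * (1 + g / a) ^ 19 := by
            rw [← mul_pow]; congr 1; field_simp
          rw [e1]
          have e2 : a ^ 18 * (a + 19 * g) = a ^ 19 * (1 + (19:ℕ) * (g / a)) := by
            push_cast; field_simp
          rw [e2]
          exact mul_le_mul_of_nonneg_left hb (by positivity)
      have hz' : 0 ≤ a - 31 / 2 * g := by linarith
      calc a ^ 20 ≤ (a ^ 18 * (a + 19 * g)) * (a - 31 / 2 * g) := by
            have e1 : (a ^ 18 * (a + 19 * g)) * (a - 31 / 2 * g) =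
              a ^ 20 + a ^ 18 * (g * (7 / 2 * a - 589 / 2 * g)) := by ring
            rw [e1]
            have : 0 ≤ a ^ 18 * (g * (7 / 2 * a - 589 / 2 * g)) := by
              have h9 : 0 ≤ 7 / 2 * a - 589 / 2 * g := by linarith
              positivity
            linarith
        _ ≤ (a + g) ^ 19 * (a - 31 / 2 * g) := mul_le_mul_of_nonneg_right p1 hz'
        _ ≤ (a + g) ^ (20 - 1) * (a - z2) := by
            apply mul_le_mul_of_nonneg_left _ (by positivity)
            linarith

end Pool.Agent.H460BZ
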