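import Pool.Agent.H460BZ.Lemma

/-!
# Banaszczyk's theorem on signed series (prefix sums in a convex body)
-/

set_option autoImplicit false

namespace Pool.Agent.H460BZ

open MeasureTheory ProbabilityTheory Set
open scoped ENNReal Pointwise

variable {n : ℕ}

/-- the bodies of the backward construction -/
def Bd (K : Set (EE n)) : ℕ → (ℕ → EE n) → Set (EE n)
  | 0, _ => K
  | m + 1, u => star (Bd K m (fun i => u (i + 1))) (u 0) ∩ K

theorem Bd_props {K : Set (EE n)} (hK : IsClosed K) (hc : Convex ℝ K) (hs : ∀ x ∈ K, -x ∈ K)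
    (ε : ℝ) (hε : 1 - ε ≤ (stdGaussian (EE n) K).toReal) :
    ∀ (m : ℕ) (u : ℕ → EE n), (∀ i < m, ‖u i‖ = 1 / 100) → ((m : ℝ) + 1) * ε ≤ 1 / 100 →
      IsClosed (Bd K m u) ∧ Convex ℝ (Bd K m u) ∧ (∀ x ∈ Bd K m u, -x ∈ Bd K m u) ∧
        1 - ((m : ℝ) + 1) * ε ≤ (stdGaussian (EE n) (Bd K m u)).toReal := by
  have hε0 : 0 ≤ ε := by
    have : (stdGaussian (EE n) K).toReal ≤ 1 := by
      have := ENNReal.toReal_mono ENNReal.one_ne_top (prob_le_one (μ := stdGaussian (EE n)) (s := K))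
      simpa using this
    linarith
  intro m
  induction m with
  | zero =>
    intro u _ _
    exact ⟨hK, hc, hs, by simpa [Bd] using hε⟩
  | succ m ih =>
    intro u hu hm
    push_cast at hm
    obtain ⟨h1, h2, h3, h4⟩ := ih (fun i => u (i + 1)) (fun i hi => hu (i + 1) (by omega))
      (by nlinarith)
    set C := Bd K m (fun i => u (i + 1)) with hC
    have hkey := key_lemma n C h1 h2 (u 0) (hu 0 (by omega)) (by nlinarith)
    refine ⟨(star_closed h1 _).inter hK, (star_convex h2 _).inter hc, ?_, ?_⟩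
    · rintro x ⟨hx1, hx2⟩
      exact ⟨star_symm h3 _ x hx1, hs x hx2⟩
    · have e1 := ENNReal.toReal_mono (measure_ne_top _ _) hkey
      have e2 : stdGaussian (EE n) (star C (u 0)) + stdGaussian (EE n) K ≤
          stdGaussian (EE n) (star C (u 0) ∩ K) + 1 := by
        rw [← measure_union_add_inter _ hK.measurableSet, add_comm]
        exact add_le_add_right prob_le_one _
      have e3 := ENNReal.toReal_mono (ENNReal.add_ne_top.2 ⟨measure_ne_top _ _, ENNReal.one_ne_top⟩) e2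
      rw [ENNReal.toReal_add (measure_ne_top _ _) (measure_ne_top _ _),
        ENNReal.toReal_add (measure_ne_top _ _) ENNReal.one_ne_top, ENNReal.toReal_one] at e3
      show 1 - (((m + 1 : ℕ) : ℝ) + 1) * ε ≤ (stdGaussian (EE n) (star C (u 0) ∩ K)).toReal
      push_cast
      linarith

theorem Bd_signs {K : Set (EE n)} (hK : IsClosed K) (hc : Convex ℝ K) (hs : ∀ x ∈ K, -x ∈ K)
    (ε : ℝ) (hε : 1 - ε ≤ (stdGaussian (EE n) K).toReal) :
    ∀ (m : ℕ) (u : ℕ → EE n), (∀ i < m, ‖u i‖ = 1 / 100) → ((m : ℝ) + 1) * ε ≤ 1 / 100 →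
      ∀ x ∈ Bd K m u, ∃ σ : ℕ → ℤ, (∀ i, σ i = 1 ∨ σ i = -1) ∧
        ∀ k ≤ m, x + ∑ i ∈ Finset.range k, (σ i : ℝ) • u i ∈ K := by
  have hε0 : 0 ≤ ε := by
    have : (stdGaussian (EE n) K).toReal ≤ 1 := by
      have := ENNReal.toReal_mono ENNReal.one_ne_top (prob_le_one (μ := stdGaussian (EE n)) (s := K))
      simpa using this
    linarith
  intro m
  induction m with
  | zero =>
    intro u _ _ x hx
    refine ⟨fun _ => 1, fun _ => Or.inl rfl, fun k hk => ?_⟩
    have : k = 0 := by omega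
    subst this
    simpa [Bd] using hx
  | succ m ih =>
    intro u hu hm x hx
    push_cast at hm
    obtain ⟨hx1, hx2⟩ := hx
    have hu' : ∀ i < m, ‖u (i + 1)‖ = 1 / 100 := fun i hi => hu (i + 1) (by omega)
    have hm' : ((m : ℝ) + 1) * ε ≤ 1 / 100 := by nlinarith
    obtain ⟨h1, h2, h3, h4⟩ := Bd_props hK hc hs ε hε m (fun i => u (i + 1)) hu' hm'
    obtain ⟨s, hs1, hs2⟩ : ∃ s : ℤ, (s = 1 ∨ s = -1) ∧
        x + (s : ℝ) • u 0 ∈ Bd K m (fun i => u (i + 1)) := by
      rcases star_step h2 (u 0) hx1 with h | h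
      · exact ⟨1, Or.inl rfl, by simpa using h⟩
      · exact ⟨-1, Or.inr rfl, by simpa [sub_eq_add_neg] using h⟩
    obtain ⟨σ, hσ1, hσ2⟩ := ih (fun i => u (i + 1)) hu' hm' _ hs2
    refine ⟨fun i => match i with | 0 => s | i + 1 => σ i, ?_, ?_⟩
    · intro i
      rcases i with _ | i
      · exact hs1
      · exact hσ1 i
    · intro k hk
      rcases k with _ | k
      · simpa using hx2
      · rw [Finset.sum_range_succ']
        have := hσ2 k (by omega)
        have e : x + (∑ i ∈ Finset.range k, (σ i : ℝ) • u (i + 1) + (s : ℝ) • u 0) =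
            x + (s : ℝ) • u 0 + ∑ i ∈ Finset.range k, (σ i : ℝ) • u (i + 1) := by abel
        show x + (∑ i ∈ Finset.range k, (σ i : ℝ) • u (i + 1) + (s : ℝ) • u 0) ∈ K
        rw [e]
        exact this

/-- **Prefix balancing.** If `K` is a closed symmetric convex set with `γ(K) ≥ 1 - ε` and
`(T + 1) ε ≤ 1/100`, and `u 0, …, u (T-1)` have norm `1/100`, then for suitable signs all partial
sums lie in `K`. -/
theorem prefix_balance {K : Set (EE n)} (hK : IsClosed K) (hc : Convex ℝ K) (hs : ∀ x ∈ K, -x ∈ K)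
    (ε : ℝ) (hε : 1 - ε ≤ (stdGaussian (EE n) K).toReal) (T : ℕ) (hT : ((T : ℝ) + 1) * ε ≤ 1 / 100)
    (u : ℕ → EE n) (hu : ∀ i < T, ‖u i‖ = 1 / 100) :
    ∃ σ : ℕ → ℤ, (∀ i, σ i = 1 ∨ σ i = -1) ∧
      ∀ k ≤ T, ∑ i ∈ Finset.range k, (σ i : ℝ) • u i ∈ K := by
  obtain ⟨h1, h2, h3, h4⟩ := Bd_props hK hc hs ε hε T u hu hT
  have hne : (Bd K T u).Nonempty := by
    by_contra hcon
    rw [Set.not_nonempty_iff_eq_empty] at hcon
    rw [hcon, measure_empty, ENNReal.toReal_zero] at h4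
    linarith
  obtain ⟨x, hx⟩ := hne
  have h0 : (0 : EE n) ∈ Bd K T u := by
    have := h2 hx (h3 x hx) (a := 1 / 2) (b := 1 / 2) (by norm_num) (by norm_num) (by norm_num)
    simpa using this
  obtain ⟨σ, hσ1, hσ2⟩ := Bd_signs hK hc hs ε hε T u hu hT 0 h0
  exact ⟨σ, hσ1, fun k hk => by simpa using hσ2 k hk⟩

end Pool.Agent.H460BZ
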