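import Pool.Agent.H460BZ.Prefix

namespace Pool.Agent.H460BZ

open MeasureTheory ProbabilityTheory Set
open scoped InnerProductSpace

theorem map_inner {n : ℕ} (S : EE n) :
    (stdGaussian (EE n)).map (fun x => ⟪S, x⟫_ℝ) = gaussianReal 0 (‖S‖ ^ 2).toNNReal := by
  have h := IsGaussian.map_eq_gaussianReal (μ := stdGaussian (EE n)) (innerSL ℝ S)
  rw [integral_strongDual_stdGaussian, variance_dual_stdGaussian, innerSL_apply_norm] at h
  exact h

theorem tail1 {n : ℕ} (S : EE n) (W R : ℝ) (hW : 0 < W) (hS : ‖S‖ ^ 2 ≤ W) (hR : 0 ≤ R) :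
    (stdGaussian (EE n)).real {x | R ≤ ⟪S, x⟫_ℝ} ≤ Real.exp (-R ^ 2 / (2 * W)) := by
  have hm := map_inner S
  have hX : Measurable (fun x : EE n => ⟪S, x⟫_ℝ) := by fun_prop
  have hint : Integrable (fun x : EE n => Real.exp (R / W * ⟪S, x⟫_ℝ)) (stdGaussian (EE n)) := by
    have h1 := integrable_exp_mul_gaussianReal (μ := 0) (v := (‖S‖ ^ 2).toNNReal) (R / W)
    rw [← hm] at h1
    rwa [integrable_map_measure (by fun_prop) hX.aemeasurable] at h1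
  have h2 := measure_ge_le_exp_mul_mgf (μ := stdGaussian (EE n)) (X := fun x => ⟪S, x⟫_ℝ) R
    (t := R / W) (by positivity) hint
  refine h2.trans ?_
  rw [mgf_gaussianReal hm, ← Real.exp_add]
  apply Real.exp_le_exp.mpr
  rw [Real.coe_toNNReal _ (by positivity)]
  have h3 : ‖S‖ ^ 2 * (R / W) ^ 2 ≤ W * (R / W) ^ 2 := by gcongr
  have h4 : W * (R / W) ^ 2 = R ^ 2 / W := by field_simp
  have h5 : -R ^ 2 / (2 * W) = - (R ^ 2 / W) / 2 := by field_simp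
  have h6 : -(R / W) * R = - (R ^ 2 / W) := by field_simp
  rw [h5, h6]
  linarith

theorem tail2 {n : ℕ} (S : EE n) (W R : ℝ) (hW : 0 < W) (hS : ‖S‖ ^ 2 ≤ W) (hR : 0 ≤ R) :
    (stdGaussian (EE n)).real {x | R ≤ |⟪S, x⟫_ℝ|} ≤ 2 * Real.exp (-R ^ 2 / (2 * W)) := by
  have h1 := tail1 S W R hW hS hR
  have h2 := tail1 (-S) W R hW (by rwa [norm_neg]) hR
  have : {x : EE n | R ≤ |⟪S, x⟫_ℝ|} ⊆ {x | R ≤ ⟪S, x⟫_ℝ} ∪ {x | R ≤ ⟪-S, x⟫_ℝ} := by
    intro x hx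
    simp only [mem_ofPred_eq, inner_neg_left] at hx ⊢
    rcases le_abs.mp hx with h | h
    · left; exact h
    · right; simpa using h
  refine (measureReal_mono this).trans ((measureReal_union_le _ _).trans ?_)
  linarith

/-- the Gaussian measure of a symmetric polytope all whose normals are short -/
theorem polytope {n : ℕ} {ι : Type*} [Fintype ι] (S : ι → EE n) (W R : ℝ) (hW : 0 < W)
    (hS : ∀ i, ‖S i‖ ^ 2 ≤ W) (hR : 0 ≤ R) :
    1 - 2 * Fintype.card ι * Real.exp (-R ^ 2 / (2 * W)) ≤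
      (stdGaussian (EE n) {x | ∀ i, |⟪S i, x⟫_ℝ| ≤ R}).toReal := by
  have hms : MeasurableSet {x : EE n | ∀ i, |⟪S i, x⟫_ℝ| ≤ R} := by
    have : {x : EE n | ∀ i, |⟪S i, x⟫_ℝ| ≤ R} = ⋂ i, {x : EE n | |⟪S i, x⟫_ℝ| ≤ R} := by
      ext x; simp
    rw [this]
    refine MeasurableSet.iInter fun i => ?_
    exact measurableSet_le (by fun_prop) measurable_const
  have h1 : (stdGaussian (EE n)).real ({x : EE n | ∀ i, |⟪S i, x⟫_ℝ| ≤ R}ᶜ) ≤
      ∑ i : ι, 2 * Real.exp (-R ^ 2 / (2 * W)) := by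
    have hsub : ({x : EE n | ∀ i, |⟪S i, x⟫_ℝ| ≤ R}ᶜ) ⊆ ⋃ i ∈ (Finset.univ : Finset ι), {x | R ≤ |⟪S i, x⟫_ℝ|} := by
      intro x hx
      simp only [mem_compl_iff, mem_ofPred_eq, not_forall, not_le] at hx
      obtain ⟨i, hi⟩ := hx
      simp only [mem_iUnion, mem_ofPred_eq, Finset.mem_univ, exists_prop, true_and]
      exact ⟨i, hi.le⟩
    refine (measureReal_mono hsub (measure_lt_top _ _).ne).trans ((measureReal_biUnion_finset_le _ _).trans ?_)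
    exact Finset.sum_le_sum fun i _ => tail2 (S i) W R hW (hS i) hR
  rw [probReal_compl_eq_one_sub hms, Finset.sum_const, Finset.card_univ, nsmul_eq_mul] at h1
  have h2 : (stdGaussian (EE n)).real {x : EE n | ∀ i, |⟪S i, x⟫_ℝ| ≤ R} =
    (stdGaussian (EE n) {x | ∀ i, |⟪S i, x⟫_ℝ| ≤ R}).toReal := rfl
  rw [← h2]
  linarith

end Pool.Agent.H460BZ
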