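import Pool.Agent.H460BZ.Geo

namespace Pool.Agent.H460BZ

open Finset

theorem log2_lo : (0.69 : ℝ) < Real.log 2 := by
  have := Real.log_two_gt_d9; linarith

open Classical in
theorem upper_P2 (D n : ℕ) (hn : 2 ≤ n) (P : Finset (Fin (D+1) → ℝ)) (hP : P.card = n) :
    ∃ χ : (Fin (D+1) → ℝ) → ℤ, (∀ p, χ p = 1 ∨ χ p = -1) ∧
      ∀ a b : Fin (D+1) → ℝ, a ≤ b → |((∑ p ∈ P with p ∈ Set.Icc a b, χ p : ℤ) : ℝ)| ≤
        (2^(D+1) * 100 * 3^D * Real.sqrt (4*D+24)) * (Real.log n)^((D:ℝ)+1/2) := by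
  set H : ℕ := Nat.log 2 n + 1 with hHdef
  have hH : n < 2 ^ H := Nat.lt_pow_succ_log_self (by norm_num) n
  have hH0 : 0 < H := by omega
  have hn' : (2:ℝ) ≤ n := by exact_mod_cast hn
  have hL : 0 < Real.log n := Real.log_pos (by linarith)
  set L := Real.log n with hLdef
  have hL2 : Real.log 2 ≤ L := Real.log_le_log (by norm_num) hn'
  have hl2 := log2_lo
  have hHL : (H:ℝ) ≤ 3 * L := by
    have h1 : (2:ℝ) ^ (Nat.log 2 n) ≤ n := by exact_mod_cast Nat.pow_log_le_self 2 (by omega)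
    have h2 : (Nat.log 2 n : ℝ) * Real.log 2 ≤ L := by
      rw [← Real.log_pow]
      exact Real.log_le_log (by positivity) h1
    rw [hHdef]; push_cast
    have h3 : ((Nat.log 2 n : ℝ) + 1) * Real.log 2 ≤ 2 * L := by linarith
    have h4 : ((Nat.log 2 n : ℝ) + 1) * 0.69 ≤ ((Nat.log 2 n : ℝ) + 1) * Real.log 2 := by
      gcongr
    nlinarith
  have hH1 : (0:ℝ) < H := by exact_mod_cast hH0
  have hlog1 : Real.log ((n:ℝ) + 1) ≤ 2 * L := by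
    have : Real.log ((n:ℝ)+1) ≤ Real.log ((n:ℝ)^2) := Real.log_le_log (by positivity) (by nlinarith)
    rw [Real.log_pow] at this
    exact_mod_cast this
  have hlog0 : 0 ≤ Real.log ((n:ℝ)+1) := Real.log_nonneg (by linarith)
  set A : ℝ := ((D:ℝ)+1) * Real.log ((n:ℝ)+1) + 6 with hA
  have hA0 : 0 ≤ A := by positivity
  have hT : ((n:ℝ)+1) * (2 * ((n:ℝ)+1)^D * Real.exp (-(Real.sqrt (2 * (H:ℝ)^D * A))^2/(2*(H:ℝ)^D))) ≤ 1/100 := by
    rw [Real.sq_sqrt (by positivity)]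
    have e1 : -(2 * (H:ℝ)^D * A) / (2 * (H:ℝ)^D) = -((D:ℝ)+1) * Real.log ((n:ℝ)+1) + (-6) := by
      rw [hA]; field_simp; ring
    rw [e1, Real.exp_add]
    have e2 : Real.exp (-((D:ℝ)+1) * Real.log ((n:ℝ)+1)) = (((n:ℝ)+1)^(D+1))⁻¹ := by
      have : -((D:ℝ)+1) * Real.log ((n:ℝ)+1) = -(((D+1:ℕ):ℝ) * Real.log ((n:ℝ)+1)) := by push_cast; ring
      rw [this, Real.exp_neg, ← Real.log_pow, Real.exp_log (by positivity)]
    rw [e2]
    have e3 : ((n:ℝ)+1) * (2 * ((n:ℝ)+1)^D * ((((n:ℝ)+1)^(D+1))⁻¹ * Real.exp (-6))) = 2 * Real.exp (-6) := by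
      rw [pow_succ]; field_simp
    rw [e3, Real.exp_neg]
    have e4 : (200:ℝ) ≤ Real.exp 6 := by
      have h1 : (2.7:ℝ) ≤ Real.exp 1 := by have := Real.exp_one_gt_d9; linarith
      have h2 : Real.exp 6 = (Real.exp 1)^6 := by rw [← Real.exp_nat_mul]; norm_num
      rw [h2]
      calc (200:ℝ) ≤ 2.7^6 := by norm_num
        _ ≤ _ := by gcongr
    have e5 : (Real.exp 6)⁻¹ ≤ (200:ℝ)⁻¹ := inv_anti₀ (by norm_num) e4
    linarith
  obtain ⟨χ, hχ, hb⟩ := upper_P D n P hP H hH hH0 (Real.sqrt (2 * (H:ℝ)^D * A)) (Real.sqrt_nonneg _) hT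
  refine ⟨χ, hχ, fun a b hab => (hb a b hab).trans ?_⟩
  have hA2 : 2 * A ≤ (4 * D + 24) * L := by
    rw [hA]
    have h5 : ((D:ℝ)+1) * Real.log ((n:ℝ)+1) ≤ ((D:ℝ)+1) * (2 * L) := by gcongr
    nlinarith
  have hs : Real.sqrt ((H:ℝ)^D) * Real.sqrt (2 * (H:ℝ)^D * A) = (H:ℝ)^D * Real.sqrt (2 * A) := by
    have : 2 * (H:ℝ)^D * A = (H:ℝ)^D * (2 * A) := by ring
    rw [this, Real.sqrt_mul (by positivity), ← mul_assoc, Real.mul_self_sqrt (by positivity)]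
  have hs2 : (H:ℝ)^D * Real.sqrt (2 * A) ≤ (3 * L)^D * (Real.sqrt (4*D+24) * Real.sqrt L) := by
    rw [← Real.sqrt_mul (by positivity)]
    gcongr
  have hs3 : L^((D:ℝ)+1/2) = L^D * Real.sqrt L := by
    rw [Real.rpow_add hL, Real.rpow_natCast, Real.sqrt_eq_rpow]
  rw [hs3]
  calc 2^(D+1) * (100 * Real.sqrt ((H:ℝ)^D) * Real.sqrt (2 * (H:ℝ)^D * A))
      = 2^(D+1) * 100 * (Real.sqrt ((H:ℝ)^D) * Real.sqrt (2 * (H:ℝ)^D * A)) := by ring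
    _ = 2^(D+1) * 100 * ((H:ℝ)^D * Real.sqrt (2 * A)) := by rw [hs]
    _ ≤ 2^(D+1) * 100 * ((3 * L)^D * (Real.sqrt (4*D+24) * Real.sqrt L)) := by gcongr
    _ = _ := by rw [mul_pow]; ring

end Pool.Agent.H460BZ
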